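import Pool.Agent.W571.GR.Tup

/-!
Project GR (helper78), GR-12: mixed moments `∑ |PE^ℓ GG|^2`.
-/

set_option autoImplicit false

namespace Pool.Agent.W571.GR

open Finset Filter
open Pool.Agent.H376R2.MR (lam w FK cell ge smoo_ge_le smoo_sigma_cell smoo_lcm_sum smoo_prod_dvd
  mom_w_nonneg mom_w_le_one)
open Pool.Agent.W78.GR

variable {t c : ℤ} {η : (Qd t c)ˣ} {Ap Bp M : ℕ → Prop} {E : ℕ} {ρ : ℕ → ℤ} {ϖ : ℕ → Qd t c}

theorem PE_powT (U : Un t c η) (hE : Ele t c Ap Bp M E ρ ϖ) (H r ℓ : ℕ) (k : ℤ) :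
    PE η M ϖ H r k ^ ℓ = (-1) ^ ℓ * ∑ m ∈ Fintype.piFinset (fun _ : Fin ℓ => cellM M H r),
      ps η k (∏ i, ϖ (m i)) / ((∏ i, m i : ℕ) : ℂ) := by
  unfold PE
  rw [neg_pow, Finset.sum_pow']
  congr 1
  apply Finset.sum_congr rfl
  intro m hm
  rw [Fintype.mem_piFinset] at hm
  rw [Finset.prod_div_distrib, ps_prod U.disc _ _ k
    (fun i _ => (hE.elt _ (mem_cellM (hm i)).1).2.2)]
  congr 1
  push_cast
  rfl

theorem bg_neT {Z : ℝ} (hZ : 0 < Z) {z : Qd t c} (h : bg Z z ≠ 0) :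
    Z / Real.exp 1 ≤ (nm z : ℝ) ∧ (nm z : ℝ) ≤ Real.exp 1 * Z := by
  obtain ⟨h0, h1, h2⟩ := bg_ne h
  have hpos : (0 : ℝ) < nm z := by exact_mod_cast h0
  have he := Real.exp_pos 1
  refine ⟨?_, ?_⟩
  · rw [← Real.log_le_log_iff (by positivity) hpos, Real.log_div hZ.ne' he.ne', Real.log_exp]
    linarith
  · rw [← Real.log_le_log_iff hpos (by positivity), Real.log_mul he.ne' hZ.ne', Real.log_exp]
    linarith

/-- the support of the window coefficients -/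
noncomputable def SG (η : (Qd t c)ˣ) (Z : ℝ) : Finset (Qd t c) :=
  (pball η (Real.exp 1 * Z)).filter (fun z => bg Z z ≠ 0)

theorem mem_SG (U : Un t c η) {Z : ℝ} (hZ : 0 < Z) {z : Qd t c} (h : z ∈ SG η Z) :
    prim z ∧ fd η z ∧ Z / Real.exp 1 ≤ (nm z : ℝ) ∧ (nm z : ℝ) ≤ Real.exp 1 * Z := by
  unfold SG at h
  rw [mem_filter, U.mem_pball] at h
  exact ⟨h.1.2.1, h.1.1, bg_neT hZ h.2⟩

theorem GG_filterT (η : (Qd t c)ˣ) (Z : ℝ) (k : ℤ) :
    Pool.Agent.W78.GR.GG η Z k = ∑ z ∈ SG η Z, (gl z : ℂ) * (bg Z z : ℂ) * ps η k z := by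
  unfold Pool.Agent.W78.GR.GG DPG SG
  rw [Finset.sum_filter_of_ne]
  intro n _ hn h0
  apply hn
  simp only [h0]
  simp

/-- index pairs -/
noncomputable def PrG (η : (Qd t c)ˣ) (M : ℕ → Prop) (H r ℓ : ℕ) (Z : ℝ) :
    Finset ((Fin ℓ → ℕ) × Qd t c) :=
  (Fintype.piFinset (fun _ : Fin ℓ => cellM M H r)) ×ˢ SG η Z

/-- coefficient of an index pair -/
noncomputable def cfG (ℓ : ℕ) (Z : ℝ) (x : (Fin ℓ → ℕ) × Qd t c) : ℂ :=
  ((gl x.2 : ℂ) * (bg Z x.2 : ℂ)) / ((∏ i, x.1 i : ℕ) : ℂ)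

theorem prod_expand (U : Un t c η) (hE : Ele t c Ap Bp M E ρ ϖ) (H r ℓ : ℕ) {Z : ℝ}
    (hZ : 0 < Z) (k : ℤ) :
    PE η M ϖ H r k ^ ℓ * Pool.Agent.W78.GR.GG η Z k =
      (-1) ^ ℓ * ∑ x ∈ PrG η M H r ℓ Z, cfG ℓ Z x * ps η k ((∏ i, ϖ (x.1 i)) * x.2) := by
  rw [PE_powT U hE H r ℓ k, GG_filterT, mul_assoc, Finset.sum_mul_sum, ← Finset.sum_product']
  congr 1
  apply Finset.sum_congr rfl
  intro x hx
  rw [mem_product, Fintype.mem_piFinset] at hx
  unfold cfG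
  rw [ps_mul U.disc k (tp_prod U.disc _ _ fun i _ => (hE.elt _ (mem_cellM (hx.1 i)).1).2.2)
    (mem_SG U hZ hx.2).2.1.1]
  ring

/-- the pairs giving the element `n * u` with content `n`: their number -/
theorem count_pairs (U : Un t c η) (hE : Ele t c Ap Bp M E ρ ϖ) {H r ℓ : ℕ} {Z : ℝ}
    (hZ : 0 < Z) (jf : (Fin ℓ → ℕ) × Qd t c → ℤ)
    (cf mf : (Fin ℓ → ℕ) × Qd t c → ℕ) (uf : (Fin ℓ → ℕ) × Qd t c → Qd t c)
    (hf : ∀ x ∈ PrG η M H r ℓ Z, (∏ i, x.1 i) = cf x * mf x ∧ prim (uf x) ∧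
      ((η ^ jf x : (Qd t c)ˣ) : Qd t c) * ((∏ i, ϖ (x.1 i)) * x.2) = (cf x : Qd t c) * uf x ∧
      lat (mf x) (ρ (mf x)) (uf x))
    (n : ℕ) (u : Qd t c) :
    (((PrG η M H r ℓ Z).filter (fun x => cf x = n)).filter (fun x => uf x = u)).card ≤
      ℓ.factorial ^ 2 * tauL ρ (Big Ap Bp E H r ℓ) u := by
  classical
  set N := Big Ap Bp E H r ℓ with hNdef
  have hN : N ≠ 0 := (big_sm Ap Bp E H r ℓ).1
  set S := ((PrG η M H r ℓ Z).filter (fun x => cf x = n)).filter (fun x => uf x = u) with hS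
  set T := Fintype.piFinset (fun _ : Fin ℓ => cellM M H r) with hT
  have hdvd : ∀ p ∈ T, (∏ i, p i) ∣ N := fun p hp => tuple_dvd_big hE hp
  have hmemS : ∀ x ∈ S, x ∈ PrG η M H r ℓ Z ∧ cf x = n ∧ uf x = u := by
    intro x hx
    rw [hS, mem_filter, mem_filter] at hx
    exact ⟨hx.1.1, hx.1.2, hx.2⟩
  -- split according to `m`
  have hmaps : ∀ x ∈ S, mf x ∈ N.divisors.filter (fun m => lat m (ρ m) u) := by
    intro x hx
    obtain ⟨h1, h2, h3⟩ := hmemS x hx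
    obtain ⟨h4, h5, h6, h7⟩ := hf x h1
    unfold PrG at h1
    rw [mem_product] at h1
    rw [mem_filter, Nat.mem_divisors]
    refine ⟨⟨?_, hN⟩, ?_⟩
    · exact (Dvd.intro_left _ h4.symm).trans (hdvd _ h1.1)
    · rw [← h3]; exact h7
  have hcard := card_eq_sum_card_fiberwise (f := mf) (s := S) hmaps
  rw [hcard]
  calc ∑ m ∈ N.divisors.filter (fun m => lat m (ρ m) u), (S.filter (fun x => mf x = m)).card
      ≤ ∑ m ∈ N.divisors.filter (fun m => lat m (ρ m) u), ℓ.factorial ^ 2 := by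
        apply sum_le_sum
        intro m _
        refine le_trans ?_ (tuple_count hE H r ℓ (n * m))
        apply card_le_card_of_injOn (fun x => x.1)
        · intro x hx
          rw [mem_coe, mem_filter] at hx
          obtain ⟨h1, h2, h3⟩ := hmemS x hx.1
          obtain ⟨h4, h5, h6, h7⟩ := hf x h1
          unfold PrG at h1
          rw [mem_product] at h1
          rw [mem_coe, mem_filter]
          refine ⟨h1.1, ?_⟩
          rw [h4, h2, hx.2]
        · intro x hx y hy hxy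
          rw [mem_coe, mem_filter] at hx hy
          obtain ⟨h1, h2, h3⟩ := hmemS x hx.1
          obtain ⟨h4, h5, h6, h7⟩ := hf x h1
          obtain ⟨k1, k2, k3⟩ := hmemS y hy.1
          obtain ⟨k4, k5, k6, k7⟩ := hf y k1
          have hxy' : x.1 = y.1 := hxy
          apply Prod.ext hxy'
          rw [← hxy', k2, k3, ← h2, ← h3, ← h6] at k6
          unfold PrG at h1 k1
          rw [mem_product, Fintype.mem_piFinset] at h1
          rw [mem_product] at k1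
          -- the product of the elements is not zero
          have hnm := nm_prod_ele hE (univ : Finset (Fin ℓ)) x.1
            (fun i _ => (mem_cellM (h1.1 i)).1)
          have hg : nm (∏ i, ϖ (x.1 i)) ≠ 0 := by
            rw [hnm]
            exact prod_ne_zero_iff.2 fun i _ => (M_pos hE (mem_cellM (h1.1 i)).1).ne'
          have hg0 : (∏ i, ϖ (x.1 i)) ≠ 0 := by
            intro h0
            rw [h0, nm_zero] at hg
            exact hg rfl
          -- cancel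
          have h8 : (∏ i, ϖ (x.1 i)) * y.2 =
              (∏ i, ϖ (x.1 i)) * (((η ^ (-jf y + jf x) : (Qd t c)ˣ) : Qd t c) * x.2) := by
            calc (∏ i, ϖ (x.1 i)) * y.2 = ((η ^ (-jf y) : (Qd t c)ˣ) : Qd t c) *
                  (((η ^ jf y : (Qd t c)ˣ) : Qd t c) * ((∏ i, ϖ (x.1 i)) * y.2)) := by
                  rw [← mul_assoc, ← Units.val_mul, ← zpow_add, neg_add_cancel, zpow_zero,
                    Units.val_one, one_mul]
              _ = ((η ^ (-jf y) : (Qd t c)ˣ) : Qd t c) *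
                  (((η ^ jf x : (Qd t c)ˣ) : Qd t c) * ((∏ i, ϖ (x.1 i)) * x.2)) := by rw [k6]
              _ = _ := by
                  rw [zpow_add, Units.val_mul]
                  ring
          have h9 := mul_cancel U.nsq hg0 h8
          exact (U.eq_of_zpow_mul (mem_SG U hZ h1.2).2.1 (mem_SG U hZ k1.2).2.1 h9).symm
    _ = ℓ.factorial ^ 2 * tauL ρ N u := by
        rw [sum_const, smul_eq_mul, mul_comm]
        unfold tauL
        rfl

theorem cs_div (D : Finset ℕ) (hD : ∀ n ∈ D, 0 < n) (F : ℕ → ℂ) :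
    ‖∑ n ∈ D, F n‖ ^ 2 ≤ (∑ n ∈ D, 1 / (n : ℝ)) * ∑ n ∈ D, (n : ℝ) * ‖F n‖ ^ 2 := by
  refine le_trans (pow_le_pow_left₀ (norm_nonneg _) (norm_sum_le _ _) 2) ?_
  apply Finset.sum_sq_le_sum_mul_sum_of_sq_le_mul
  · intro n _; positivity
  · intro n _; positivity
  · intro n hn
    have hcpos : 0 < (n : ℝ) := by exact_mod_cast hD n hn
    apply le_of_eq
    field_simp

end Pool.Agent.W571.GR
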