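import Pool.Agent.W78.GR.Basic
import Pool.Agent.H376R2.MR.Smoo
import Pool.Agent.H376R2.MR.Mom

/-! Project GR (helper78), GR-11: mean values `S_LS → S_LAT → S_MOM0`, `S_LS → S_MOMP`
(port of Pool.Agent.W822.GA.Momp). -/

set_option autoImplicit false

namespace Pool.Agent.W571.GR

open Finset Filter
open Pool.Agent.H376R2.MR Pool.Agent.W78.GR

variable {t c : ℤ} {η : (Qd t c)ˣ}

/-! ### products of the elements `ϖ m` -/

lemma tp_prod (hd : 4 * c < t ^ 2) {ι : Type*} (s : Finset ι) (f : ι → Qd t c)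
    (hf : ∀ i ∈ s, tp (f i)) : tp (∏ i ∈ s, f i) := by
  classical
  induction s using Finset.induction_on with
  | empty => simpa using tp_one
  | insert a s ha ih =>
    rw [Finset.prod_insert ha]
    exact tp_mul hd (hf a (mem_insert_self a s)) (ih fun i hi => hf i (mem_insert_of_mem hi))

lemma ps_prod (hd : 4 * c < t ^ 2) {ι : Type*} (s : Finset ι) (f : ι → Qd t c) (k : ℤ)
    (hf : ∀ i ∈ s, tp (f i)) : ps η k (∏ i ∈ s, f i) = ∏ i ∈ s, ps η k (f i) := by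
  classical
  induction s using Finset.induction_on with
  | empty => simp [ps_one]
  | insert a s ha ih =>
    have h1 : ∀ i ∈ s, tp (f i) := fun i hi => hf i (mem_insert_of_mem hi)
    rw [Finset.prod_insert ha, Finset.prod_insert ha,
      ps_mul hd k (hf a (mem_insert_self a s)) (tp_prod hd s f h1), ih h1]

lemma nm_mod_lat {l : ℕ} {r : ℤ} (hr : (l : ℤ) ∣ r ^ 2 - t * r + c) {z : Qd t c}
    (h : lat l r z) : l ∣ nm z := by
  unfold lat at h
  unfold nm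
  rw [← Int.natCast_dvd]
  have e : z.re ^ 2 + t * z.re * z.im + c * z.im ^ 2 =
      (z.re + r * z.im) * (z.re + (t - r) * z.im) + (r ^ 2 - t * r + c) * z.im ^ 2 := by ring
  rw [e]
  exact dvd_add (h.mul_right _) (hr.mul_right _)

lemma nm_prod {ι : Type*} (s : Finset ι) (f : ι → Qd t c) :
    nm (∏ i ∈ s, f i) = ∏ i ∈ s, nm (f i) := by
  classical
  induction s using Finset.induction_on with
  | empty => simp
  | insert a s ha ih => rw [Finset.prod_insert ha, Finset.prod_insert ha, nm_mul, ih]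

/-- a prime ideal containing a product contains a factor -/
lemma lat_prod {l : ℕ} (hl : l.Prime) {r : ℤ} (hr : (l : ℤ) ∣ r ^ 2 - t * r + c) {ι : Type*}
    (s : Finset ι) (f : ι → Qd t c) (h : lat l r (∏ i ∈ s, f i)) : ∃ i ∈ s, lat l r (f i) := by
  classical
  have hlp : Prime (l : ℤ) := Nat.prime_iff_prime_int.1 hl
  induction s using Finset.induction_on with
  | empty =>
    exfalso
    unfold lat at h
    simp only [Finset.prod_empty, QuadraticAlgebra.re_one, QuadraticAlgebra.im_one, mul_zero,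
      add_zero] at h
    exact hlp.not_isUnit (isUnit_of_dvd_one h)
  | insert a s ha ih =>
    rw [Finset.prod_insert ha] at h
    have h1 := lat_mul_eq hr (f a) (∏ i ∈ s, f i)
    unfold lat at h
    have h2 : (l : ℤ) ∣ ((f a).re + r * (f a).im) *
        ((∏ i ∈ s, f i).re + r * (∏ i ∈ s, f i).im) := by
      have := dvd_sub h h1
      simpa using this
    rcases hlp.dvd_or_dvd h2 with h3 | h3
    · exact ⟨a, mem_insert_self a s, h3⟩
    · obtain ⟨i, hi, h4⟩ := ih h3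
      exact ⟨i, mem_insert_of_mem hi, h4⟩

section
variable {Ap Bp M : ℕ → Prop} {E : ℕ} {ρ : ℕ → ℤ} {ϖ : ℕ → Qd t c}

lemma Ele.sm (hE : Ele t c Ap Bp M E ρ ϖ) {m : ℕ} (hm : M m) : Sm Ap Bp m := by
  obtain ⟨p, q, hp, hq, rfl, _, _⟩ := hE.fac m hm
  have hpp := (hE.prA p hp).1
  have hqq := (hE.prB q hq).1
  refine ⟨(Nat.mul_pos hpp.pos hqq.pos).ne', fun l hl hd => ?_⟩
  rcases (hl.dvd_mul).1 hd with h | h
  · left
    rw [(Nat.prime_dvd_prime_iff_eq hl hpp).1 h]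
    exact hp
  · right
    rw [(Nat.prime_dvd_prime_iff_eq hl hqq).1 h]
    exact hq

lemma Ele.pos' (hE : Ele t c Ap Bp M E ρ ϖ) {m : ℕ} (hm : M m) : 0 < m :=
  Nat.pos_of_ne_zero (Ele.sm hE hm).1

/-- no square of a prime divides `m` -/
lemma Ele.sqfree (hE : Ele t c Ap Bp M E ρ ϖ) {m : ℕ} (hm : M m) {l : ℕ} (hl : l.Prime) :
    ¬ l ^ 2 ∣ m := by
  obtain ⟨p, q, hp, hq, rfl, _, _⟩ := hE.fac m hm
  have hpp := (hE.prA p hp).1
  have hqq := (hE.prB q hq).1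
  intro hd
  have hne : p ≠ q := by
    rintro rfl
    exact hE.disj p hp hq
  have h1 : l ∣ p * q := (dvd_pow_self l two_ne_zero).trans hd
  rcases (hl.dvd_mul).1 h1 with h | h
  · have h2 := (Nat.prime_dvd_prime_iff_eq hl hpp).1 h
    subst h2
    rw [pow_two] at hd
    have h3 := Nat.dvd_of_mul_dvd_mul_left hl.pos hd
    exact hne ((Nat.prime_dvd_prime_iff_eq hl hqq).1 h3)
  · have h2 := (Nat.prime_dvd_prime_iff_eq hl hqq).1 h
    subst h2
    rw [pow_two] at hd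
    have h3 := Nat.dvd_of_mul_dvd_mul_right hl.pos hd
    exact hne ((Nat.prime_dvd_prime_iff_eq hl hpp).1 h3).symm

/-- products of the elements `ϖ m` are primitive -/
lemma prim_prod (hE : Ele t c Ap Bp M E ρ ϖ) {ι : Type*} (s : Finset ι)
    (m : ι → ℕ) (hm : ∀ i ∈ s, M (m i)) : prim (∏ i ∈ s, ϖ (m i)) := by
  classical
  rw [prim_iff]
  intro l hl hd
  have hlp : Prime (l : ℤ) := Nat.prime_iff_prime_int.1 hl
  have hnm : nm (∏ i ∈ s, ϖ (m i)) = ∏ i ∈ s, m i := by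
    rw [nm_prod]
    exact Finset.prod_congr rfl fun i hi => (hE.elt _ (hm i hi)).1
  have hlN : l ∣ ∏ i ∈ s, m i := by
    have h1 := nm_dvd hd
    rw [nm_natCast, hnm] at h1
    exact (dvd_pow_self l two_ne_zero).trans h1
  rw [Prime.dvd_finsetProd_iff hl.prime] at hlN
  obtain ⟨i₀, hi₀, hli₀⟩ := hlN
  have hAB := (Ele.sm hE (hm i₀ hi₀)).2 l hl hli₀
  have hdisc : ¬ (l : ℤ) ∣ t ^ 2 - 4 * c := by
    rcases hAB with h | h
    · exact (hE.prA l h).2.2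
    · exact (hE.prB l h).2.2
  have hSm : Sm Ap Bp l := by
    refine ⟨hl.ne_zero, fun p hp hpl => ?_⟩
    rw [(Nat.prime_dvd_prime_iff_eq hp hl).1 hpl]
    exact hAB
  have hroot := hE.root l hSm
  have hroot' : (l : ℤ) ∣ (t - ρ l) ^ 2 - t * (t - ρ l) + c := by
    have e : (t - ρ l) ^ 2 - t * (t - ρ l) + c = ρ l ^ 2 - t * ρ l + c := by ring
    rw [e]
    exact hroot
  obtain ⟨hd1, hd2⟩ := natCast_dvd.1 hd
  have hlat : lat l (t - ρ l) (∏ i ∈ s, ϖ (m i)) := dvd_add hd1 (hd2.mul_left _)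
  obtain ⟨i, hi, hlat1⟩ := lat_prod hl hroot' s (fun i => ϖ (m i)) hlat
  have hMi := hm i hi
  obtain ⟨hn1, hn2, _⟩ := hE.elt _ hMi
  have hlm : l ∣ m i := by
    have := nm_mod_lat hroot' hlat1
    rwa [hn1] at this
  have hcomp := hE.compat l (m i) (Ele.sm hE hMi) hlm
  have h1 : (l : ℤ) ∣ (ϖ (m i)).re + ρ l * (ϖ (m i)).im := by
    have h2 : (l : ℤ) ∣ (ϖ (m i)).re + ρ (m i) * (ϖ (m i)).im :=
      (Int.natCast_dvd_natCast.2 hlm).trans hn2
    have h3 : (ϖ (m i)).re + ρ l * (ϖ (m i)).im =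
        ((ϖ (m i)).re + ρ (m i) * (ϖ (m i)).im) - (ρ (m i) - ρ l) * (ϖ (m i)).im := by ring
    rw [h3]
    exact dvd_sub h2 (hcomp.mul_right _)
  have h4 : (l : ℤ) ∣ (ϖ (m i)).re + (t - ρ l) * (ϖ (m i)).im := hlat1
  have h5 : (l : ℤ) ∣ (2 * ρ l - t) * (ϖ (m i)).im := by
    have e : (2 * ρ l - t) * (ϖ (m i)).im = ((ϖ (m i)).re + ρ l * (ϖ (m i)).im) -
        ((ϖ (m i)).re + (t - ρ l) * (ϖ (m i)).im) := by ring
    rw [e]
    exact dvd_sub h1 h4
  rcases hlp.dvd_or_dvd h5 with h6 | h6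
  · apply hdisc
    have e : t ^ 2 - 4 * c = (2 * ρ l - t) * (2 * ρ l - t) - 4 * (ρ l ^ 2 - t * ρ l + c) := by ring
    rw [e]
    exact dvd_sub (h6.mul_right _) (hroot.mul_left _)
  · have h7 : (l : ℤ) ∣ (ϖ (m i)).re := by
      have e : (ϖ (m i)).re = ((ϖ (m i)).re + ρ l * (ϖ (m i)).im) - ρ l * (ϖ (m i)).im := by ring
      rw [e]
      exact dvd_sub h1 (h6.mul_left _)
    have h8 : (l : Qd t c) ∣ ϖ (m i) := natCast_dvd.2 ⟨h7, h6⟩
    have h9 := nm_dvd h8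
    rw [nm_natCast, hn1] at h9
    exact Ele.sqfree hE hMi hl h9

/-! ### cells -/

lemma mem_cellM {M : ℕ → Prop} {H v m : ℕ} (h : m ∈ cellM M H v) :
    M m ∧ (v : ℝ) / H ≤ Real.log m ∧ Real.log m < ((v : ℝ) + 1) / H := by
  classical
  unfold cellM at h
  exact (mem_filter.1 h).2

lemma cellM_exp (hE : Ele t c Ap Bp M E ρ ϖ) {H v m : ℕ} (h : m ∈ cellM M H v) :
    0 < m ∧ Real.exp ((v : ℝ) / H) ≤ m ∧ (m : ℝ) ≤ Real.exp (((v : ℝ) + 1) / H) := by
  obtain ⟨h1, h2, h3⟩ := mem_cellM h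
  have h0 := Ele.pos' hE h1
  have h0' : (0 : ℝ) < m := by exact_mod_cast h0
  exact ⟨h0, (Real.le_log_iff_exp_le h0').1 h2, ((Real.log_lt_iff_lt_exp h0').1 h3).le⟩

lemma mE_nonneg (M : ℕ → Prop) (H v : ℕ) : 0 ≤ mE M H v := by
  unfold mE
  exact Finset.sum_nonneg fun m _ => by positivity

lemma mE_le (hE : Ele t c Ap Bp M E ρ ϖ) {H : ℕ} (hH : 1 ≤ H) (v : ℕ) : mE M H v ≤ 4 := by
  classical
  have hHpos : (0 : ℝ) < H := by exact_mod_cast hH
  set A := Real.exp ((v : ℝ) / H) with hA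
  have hA1 : 1 ≤ A := Real.one_le_exp (by positivity)
  have hA0 : 0 < A := by linarith
  have hB : Real.exp (((v : ℝ) + 1) / H) ≤ 3 * A := by
    have e : ((v : ℝ) + 1) / H = (v : ℝ) / H + 1 / H := by ring
    rw [e, Real.exp_add, ← hA]
    have h1 : Real.exp (1 / (H : ℝ)) ≤ 3 := by
      have h2 : (1 : ℝ) / H ≤ 1 := by
        rw [div_le_one hHpos]
        exact_mod_cast hH
      exact (Real.exp_le_exp.2 h2).trans Real.exp_one_lt_three.le
    nlinarith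
  have hcard : ((cellM M H v).card : ℝ) ≤ 4 * A := by
    have h1 : (cellM M H v).card ≤ ⌊Real.exp (((v : ℝ) + 1) / H)⌋₊ + 1 := by
      unfold cellM
      refine (Finset.card_filter_le _ _).trans ?_
      rw [Finset.card_range]
    have h2 : ((⌊Real.exp (((v : ℝ) + 1) / H)⌋₊ : ℕ) : ℝ) ≤ Real.exp (((v : ℝ) + 1) / H) :=
      Nat.floor_le (Real.exp_pos _).le
    have h3 : ((cellM M H v).card : ℝ) ≤ (⌊Real.exp (((v : ℝ) + 1) / H)⌋₊ : ℕ) + 1 := by
      exact_mod_cast h1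
    linarith
  unfold mE
  calc ∑ m ∈ cellM M H v, 1 / (m : ℝ) ≤ ∑ _m ∈ cellM M H v, 1 / A := by
        apply Finset.sum_le_sum
        intro m hm
        have := (cellM_exp hE hm).2.1
        exact one_div_le_one_div_of_le hA0 this
    _ = (cellM M H v).card * (1 / A) := by rw [Finset.sum_const, nsmul_eq_mul]
    _ ≤ 4 * A * (1 / A) := by gcongr
    _ = 4 := by field_simp

/-- the tuples -/
noncomputable def TT (M : ℕ → Prop) (H r ℓ : ℕ) : Finset (Fin ℓ → ℕ) :=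
  Fintype.piFinset (fun _ : Fin ℓ => cellM M H r)

lemma mem_TT {M : ℕ → Prop} {H r ℓ : ℕ} {τ : Fin ℓ → ℕ} :
    τ ∈ TT M H r ℓ ↔ ∀ i, τ i ∈ cellM M H r := by
  unfold TT
  rw [Fintype.mem_piFinset]

/-- tuples with a given product: at most `(ℓ!)^2` -/
lemma card_fiber (hE : Ele t c Ap Bp M E ρ ϖ) (H r ℓ N : ℕ) :
    ((TT M H r ℓ).filter (fun τ => ∏ i, τ i = N)).card ≤ ℓ.factorial ^ 2 := by
  classical
  have hex : ∀ m, ∃ pq : ℕ × ℕ, M m → Ap pq.1 ∧ Bp pq.2 ∧ m = pq.1 * pq.2 := by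
    intro m
    by_cases hm : M m
    · obtain ⟨p, q, hp, hq, h, _, _⟩ := hE.fac m hm
      exact ⟨(p, q), fun _ => ⟨hp, hq, h⟩⟩
    · exact ⟨(0, 0), fun h => absurd h hm⟩
  choose pq hpq using hex
  rcases ((TT M H r ℓ).filter (fun τ => ∏ i, τ i = N)).eq_empty_or_nonempty with he | ⟨τ₀, hτ₀⟩
  · rw [he]; simp
  set S1 := (cellM M H r).image (fun m => (pq m).1) with hS1
  set S2 := (cellM M H r).image (fun m => (pq m).2) with hS2
  have hS1p : ∀ p ∈ S1, p.Prime := by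
    intro p hp
    rw [hS1, mem_image] at hp
    obtain ⟨m, hm, rfl⟩ := hp
    exact (hE.prA _ (hpq m (mem_cellM hm).1).1).1
  have hS2p : ∀ p ∈ S2, p.Prime := by
    intro p hp
    rw [hS2, mem_image] at hp
    obtain ⟨m, hm, rfl⟩ := hp
    exact (hE.prB _ (hpq m (mem_cellM hm).1).2.1).1
  -- the two parts of the product are determined
  have hprop : ∀ τ ∈ (TT M H r ℓ).filter (fun τ => ∏ i, τ i = N),
      (∀ i, Ap (pq (τ i)).1 ∧ Bp (pq (τ i)).2 ∧ τ i = (pq (τ i)).1 * (pq (τ i)).2) ∧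
      (∏ i, (pq (τ i)).1) * (∏ i, (pq (τ i)).2) = N := by
    intro τ hτ
    rw [mem_filter, mem_TT] at hτ
    have h1 : ∀ i, Ap (pq (τ i)).1 ∧ Bp (pq (τ i)).2 ∧ τ i = (pq (τ i)).1 * (pq (τ i)).2 :=
      fun i => hpq _ (mem_cellM (hτ.1 i)).1
    refine ⟨h1, ?_⟩
    rw [← Finset.prod_mul_distrib, ← hτ.2]
    exact Finset.prod_congr rfl fun i _ => (h1 i).2.2.symm
  have hcop : ∀ τ ∈ (TT M H r ℓ).filter (fun τ => ∏ i, τ i = N),
      ∀ τ' ∈ (TT M H r ℓ).filter (fun τ => ∏ i, τ i = N),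
      Nat.Coprime (∏ i, (pq (τ i)).1) (∏ i, (pq (τ' i)).2) := by
    intro τ hτ τ' hτ'
    apply Nat.Coprime.prod_left
    intro i _
    apply Nat.Coprime.prod_right
    intro j _
    have h1 := ((hprop τ hτ).1 i).1
    have h2 := ((hprop τ' hτ').1 j).2.1
    rw [Nat.coprime_primes (hE.prA _ h1).1 (hE.prB _ h2).1]
    intro h
    rw [h] at h1
    exact hE.disj _ h1 h2
  have hdet : ∀ τ ∈ (TT M H r ℓ).filter (fun τ => ∏ i, τ i = N),
      (∏ i, (pq (τ i)).1) = (∏ i, (pq (τ₀ i)).1) ∧ (∏ i, (pq (τ i)).2) = (∏ i, (pq (τ₀ i)).2) := by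
    intro τ hτ
    have e1 := (hprop τ hτ).2
    have e2 := (hprop τ₀ hτ₀).2
    have c1 := hcop τ hτ τ₀ hτ₀
    have c2 := hcop τ₀ hτ₀ τ hτ
    constructor
    · apply Nat.dvd_antisymm
      · exact c1.dvd_of_dvd_mul_right (by rw [e2, ← e1]; exact dvd_mul_right _ _)
      · exact c2.dvd_of_dvd_mul_right (by rw [e1, ← e2]; exact dvd_mul_right _ _)
    · apply Nat.dvd_antisymm
      · exact c2.symm.dvd_of_dvd_mul_left (by rw [e2, ← e1]; exact dvd_mul_left _ _)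
      · exact c1.symm.dvd_of_dvd_mul_left (by rw [e1, ← e2]; exact dvd_mul_left _ _)
  have hinj : ((TT M H r ℓ).filter (fun τ => ∏ i, τ i = N)).card ≤
      (((Fintype.piFinset fun _ : Fin ℓ => S1).filter
          (fun p => (∏ i, p i) = ∏ i, (pq (τ₀ i)).1)) ×ˢ
        ((Fintype.piFinset fun _ : Fin ℓ => S2).filter
          (fun p => (∏ i, p i) = ∏ i, (pq (τ₀ i)).2))).card := by
    refine Finset.card_le_card_of_injOn
      (fun τ => (fun i => (pq (τ i)).1, fun i => (pq (τ i)).2)) ?_ ?_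
    · intro τ hτ
      have hτ' := Finset.mem_coe.1 hτ
      have h1 := hdet τ hτ'
      rw [mem_filter, mem_TT] at hτ'
      rw [Finset.mem_coe, mem_product, mem_filter, mem_filter, Fintype.mem_piFinset,
        Fintype.mem_piFinset]
      refine ⟨⟨fun i => ?_, h1.1⟩, fun i => ?_, h1.2⟩
      · rw [hS1]
        exact mem_image_of_mem (fun m => (pq m).1) (hτ'.1 i)
      · rw [hS2]
        exact mem_image_of_mem (fun m => (pq m).2) (hτ'.1 i)
    · intro τ hτ τ' hτ' h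
      have h1 := (hprop τ (Finset.mem_coe.1 hτ)).1
      have h2 := (hprop τ' (Finset.mem_coe.1 hτ')).1
      rw [Prod.mk.injEq] at h
      funext i
      rw [(h1 i).2.2, (h2 i).2.2]
      have h3 := congrFun h.1 i
      have h4 := congrFun h.2 i
      rw [h3, h4]
  refine hinj.trans ?_
  rw [Finset.card_product, pow_two]
  exact Nat.mul_le_mul (smoo_ge_le S1 hS1p ℓ _) (smoo_ge_le S2 hS2p ℓ _)

end

/-! ### the moments of `P` -/

section
variable {Ap Bp M : ℕ → Prop} {E : ℕ} {ρ : ℕ → ℤ} {ϖ : ℕ → Qd t c}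

/-- the product of the elements of a tuple, in the fundamental domain -/
noncomputable def gg (η : (Qd t c)ˣ) (ϖ : ℕ → Qd t c) {ℓ : ℕ} (τ : Fin ℓ → ℕ) : Qd t c :=
  rep η (∏ i, ϖ (τ i))

open scoped Classical in
/-- the nonnegative coefficient -/
noncomputable def FF (η : (Qd t c)ˣ) (M : ℕ → Prop) (ϖ : ℕ → Qd t c) (H r ℓ : ℕ) (z : Qd t c) : ℝ :=
  ∑ τ ∈ (TT M H r ℓ).filter (fun τ => gg η ϖ τ = z), ∏ i, 1 / (τ i : ℝ)

open scoped Classical in
/-- the support -/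
noncomputable def SZ (η : (Qd t c)ˣ) (M : ℕ → Prop) (ϖ : ℕ → Qd t c) (H r ℓ : ℕ) : Finset (Qd t c) :=
  (TT M H r ℓ).image (gg η ϖ)

lemma FF_nonneg (H r ℓ : ℕ) (z : Qd t c) : 0 ≤ FF η M ϖ H r ℓ z := by
  unfold FF
  exact Finset.sum_nonneg fun τ _ => Finset.prod_nonneg fun i _ => by positivity

lemma PE_pow (U : Un t c η) (hE : Ele t c Ap Bp M E ρ ϖ) (H r ℓ : ℕ) (k : ℤ) :
    (-∑ m ∈ cellM M H r, ps η k (ϖ m) / (m : ℂ)) ^ ℓ =
      DPG η (SZ η M ϖ H r ℓ) (fun z => (-1) ^ ℓ * (FF η M ϖ H r ℓ z : ℂ)) k := by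
  classical
  rw [neg_pow, Finset.sum_pow']
  have h1 : ∑ p ∈ Fintype.piFinset fun _ : Fin ℓ => cellM M H r,
      ∏ i, ps η k (ϖ (p i)) / ((p i : ℕ) : ℂ) =
      ∑ τ ∈ TT M H r ℓ, ps η k (gg η ϖ τ) * ((∏ i, 1 / (τ i : ℝ) : ℝ) : ℂ) := by
    unfold TT
    refine Finset.sum_congr rfl fun τ hτ => ?_
    have hMi : ∀ i, M (τ i) := fun i =>
      (mem_cellM ((Fintype.mem_piFinset.1 hτ) i)).1
    have htp : ∀ i ∈ (Finset.univ : Finset (Fin ℓ)), tp (ϖ (τ i)) := fun i _ =>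
      (hE.elt _ (hMi i)).2.2
    unfold gg
    rw [U.ps_rep k (tp_prod U.disc _ _ htp), ps_prod U.disc _ _ k htp]
    push_cast
    rw [← Finset.prod_mul_distrib]
    refine Finset.prod_congr rfl fun i _ => ?_
    rw [mul_one_div]
  rw [h1]
  unfold DPG SZ
  rw [← Finset.sum_fiberwise_of_maps_to (g := gg η ϖ) (t := (TT M H r ℓ).image (gg η ϖ))
    (fun p hp => Finset.mem_image_of_mem _ hp), Finset.mul_sum]
  refine Finset.sum_congr rfl fun z _ => ?_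
  unfold FF
  push_cast
  rw [mul_assoc, Finset.sum_mul]
  congr 1
  refine Finset.sum_congr ?_ fun τ hτ => ?_
  · congr
  · rw [(Finset.mem_filter.1 hτ).2]
    ring

lemma norm_PE_le (H r : ℕ) (k : ℤ) :
    ‖PE η M ϖ H r k‖ ≤ ‖-∑ m ∈ cellM M H r, ps η k (ϖ m) / (m : ℂ)‖ := le_rfl

theorem momp_of (U : Un t c η) (hLS : S_LS t c η) : S_MOMP t c η := by
  classical
  intro Ap Bp M E ρ ϖ hE
  obtain ⟨C, hC, hls⟩ := hLS
  refine ⟨2 * C + 12, by linarith, ?_⟩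
  intro H r ℓ K hH hK hKe
  have hHpos : (0 : ℝ) < H := by exact_mod_cast hH
  set A : ℝ := Real.exp ((r : ℝ) * ℓ / H) with hA
  set B : ℝ := Real.exp (((r : ℝ) + 1) * ℓ / H) with hB
  have hA1 : (1 : ℝ) ≤ A := Real.one_le_exp (by positivity)
  have hAB : A ≤ B := by
    apply Real.exp_le_exp.2
    gcongr
    linarith
  have hA0 : 0 < A := by linarith
  have hB0 : 0 < B := by linarith
  have hAe : A = Real.exp ((r : ℝ) / H) ^ ℓ := by
    rw [hA, ← Real.exp_nat_mul]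
    congr 1
    ring
  have hBe : B = Real.exp (((r : ℝ) + 1) / H) ^ ℓ := by
    rw [hB, ← Real.exp_nat_mul]
    congr 1
    ring
  -- tuples
  have hTnm : ∀ τ ∈ TT M H r ℓ, nm (gg η ϖ τ) = ∏ i, τ i := by
    intro τ hτ
    rw [mem_TT] at hτ
    unfold gg
    rw [Un.nm_rep, nm_prod]
    exact Finset.prod_congr rfl fun i _ => (hE.elt _ (mem_cellM (hτ i)).1).1
  have hTlow : ∀ τ ∈ TT M H r ℓ, ∏ i, 1 / (τ i : ℝ) ≤ 1 / A := by
    intro τ hτ
    rw [mem_TT] at hτ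
    have hpc : ∏ _i : Fin ℓ, (Real.exp ((r : ℝ) / H))⁻¹ = (Real.exp ((r : ℝ) / H))⁻¹ ^ ℓ := by
      rw [Finset.prod_const, Finset.card_univ, Fintype.card_fin]
    rw [hAe, one_div, ← inv_pow, ← hpc]
    refine Finset.prod_le_prod (fun i _ => by positivity) fun i _ => ?_
    rw [← one_div]
    exact one_div_le_one_div_of_le (Real.exp_pos _) (cellM_exp hE (hτ i)).2.1
  have hs : SZ η M ϖ H r ℓ ⊆ pball η B := by
    intro z hz
    unfold SZ at hz
    rw [Finset.mem_image] at hz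
    obtain ⟨τ, hτ, rfl⟩ := hz
    have hMi : ∀ i, M (τ i) := fun i => (mem_cellM (mem_TT.1 hτ i)).1
    have htp : ∀ i ∈ (Finset.univ : Finset (Fin ℓ)), tp (ϖ (τ i)) := fun i _ =>
      (hE.elt _ (hMi i)).2.2
    rw [U.mem_pball]
    refine ⟨U.rep_fd (tp_prod U.disc _ _ htp),
      Un.prim_rep.2 (prim_prod hE _ τ fun i _ => hMi i), ?_⟩
    rw [hTnm τ hτ, hBe]
    push_cast
    have hpc : ∏ _i : Fin ℓ, Real.exp (((r : ℝ) + 1) / H) = Real.exp (((r : ℝ) + 1) / H) ^ ℓ := by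
      rw [Finset.prod_const, Finset.card_univ, Fintype.card_fin]
    rw [← hpc]
    exact Finset.prod_le_prod (fun i _ => by positivity)
      fun i _ => (cellM_exp hE (mem_TT.1 hτ i)).2.2
  have hm := hls B K (SZ η M ϖ H r ℓ) (fun z => (-1) ^ ℓ * (FF η M ϖ H r ℓ z : ℂ)) (hA1.trans hAB)
    hK hs
  have hFle : ∀ z, FF η M ϖ H r ℓ z ≤ (ℓ.factorial : ℝ) ^ 2 * (1 / A) := by
    intro z
    unfold FF
    calc ∑ τ ∈ (TT M H r ℓ).filter (fun τ => gg η ϖ τ = z), ∏ i, 1 / (τ i : ℝ)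
        ≤ ∑ τ ∈ (TT M H r ℓ).filter (fun τ => gg η ϖ τ = z), 1 / A :=
          Finset.sum_le_sum fun τ hτ => hTlow τ (Finset.mem_filter.1 hτ).1
      _ = ((TT M H r ℓ).filter (fun τ => gg η ϖ τ = z)).card * (1 / A) := by
          rw [Finset.sum_const, nsmul_eq_mul]
      _ ≤ (ℓ.factorial : ℝ) ^ 2 * (1 / A) := by
          have h1 : ((TT M H r ℓ).filter (fun τ => gg η ϖ τ = z)).card ≤ ℓ.factorial ^ 2 := by
            refine le_trans (Finset.card_le_card ?_) (card_fiber hE H r ℓ (nm z))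
            intro τ hτ
            rw [Finset.mem_filter] at hτ ⊢
            refine ⟨hτ.1, ?_⟩
            rw [← hTnm τ hτ.1, hτ.2]
          have h2 : (((TT M H r ℓ).filter (fun τ => gg η ϖ τ = z)).card : ℝ) ≤
              (ℓ.factorial : ℝ) ^ 2 := by exact_mod_cast h1
          gcongr
  have hFsum : ∑ z ∈ SZ η M ϖ H r ℓ, FF η M ϖ H r ℓ z ≤ 4 ^ ℓ := by
    have h1 : ∑ z ∈ SZ η M ϖ H r ℓ, FF η M ϖ H r ℓ z = mE M H r ^ ℓ := by
      unfold mE
      rw [Finset.sum_pow']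
      unfold FF SZ
      rw [Finset.sum_fiberwise_of_maps_to (fun p hp => Finset.mem_image_of_mem _ hp)]
      rfl
    rw [h1]
    exact pow_le_pow_left₀ (mE_nonneg _ _ _) (mE_le hE hH r) _
  have hsum : ∑ z ∈ SZ η M ϖ H r ℓ, ‖(-1) ^ ℓ * (FF η M ϖ H r ℓ z : ℂ)‖ ^ 2 ≤
      (ℓ.factorial : ℝ) ^ 2 * (1 / A) * 4 ^ ℓ := by
    calc ∑ z ∈ SZ η M ϖ H r ℓ, ‖(-1) ^ ℓ * (FF η M ϖ H r ℓ z : ℂ)‖ ^ 2
        ≤ ∑ z ∈ SZ η M ϖ H r ℓ, (ℓ.factorial : ℝ) ^ 2 * (1 / A) * FF η M ϖ H r ℓ z := by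
          refine Finset.sum_le_sum fun z _ => ?_
          rw [norm_mul, norm_pow, norm_neg, norm_one, one_pow, one_mul, Complex.norm_real,
            Real.norm_of_nonneg (FF_nonneg _ _ _ _), pow_two]
          exact mul_le_mul_of_nonneg_right (hFle z) (FF_nonneg _ _ _ _)
      _ = (ℓ.factorial : ℝ) ^ 2 * (1 / A) * ∑ z ∈ SZ η M ϖ H r ℓ, FF η M ϖ H r ℓ z := by
          rw [Finset.mul_sum]
      _ ≤ (ℓ.factorial : ℝ) ^ 2 * (1 / A) * 4 ^ ℓ := by gcongr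
  have hBA : B / A ≤ 3 ^ ℓ := by
    rw [hA, hB, ← Real.exp_sub]
    have h1 : ((r : ℝ) + 1) * ℓ / H - (r : ℝ) * ℓ / H = ℓ / H := by ring
    rw [h1]
    have h2 : (ℓ : ℝ) / H ≤ ℓ := by
      rw [div_le_iff₀ hHpos]
      have : (1 : ℝ) ≤ H := by exact_mod_cast hH
      nlinarith [(Nat.cast_nonneg ℓ : (0 : ℝ) ≤ ℓ)]
    calc Real.exp ((ℓ : ℝ) / H) ≤ Real.exp (ℓ : ℝ) := Real.exp_le_exp.2 h2
      _ = Real.exp 1 ^ ℓ := by rw [← Real.exp_nat_mul, mul_one]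
      _ ≤ 3 ^ ℓ := by
          have := Real.exp_one_lt_three
          gcongr
  have hfac : (1 : ℝ) ≤ ℓ.factorial := by exact_mod_cast Nat.succ_le_of_lt ℓ.factorial_pos
  calc ∑ k ∈ FK K, ‖PE η M ϖ H r k‖ ^ (2 * ℓ)
      ≤ ∑ k ∈ FK K, ‖DPG η (SZ η M ϖ H r ℓ) (fun z => (-1) ^ ℓ * (FF η M ϖ H r ℓ z : ℂ)) k‖ ^ 2 := by
        apply Finset.sum_le_sum
        intro k _
        rw [← PE_pow U hE, norm_pow, ← pow_mul, mul_comm ℓ 2]
        exact pow_le_pow_left₀ (norm_nonneg _) (norm_PE_le H r k) _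
    _ ≤ _ := hm
    _ ≤ C * (B + B) * ((ℓ.factorial : ℝ) ^ 2 * (1 / A) * 4 ^ ℓ) := by
        have hKB : (K : ℝ) ≤ B := hKe.trans hAB
        gcongr
    _ = 2 * C * (B / A) * 4 ^ ℓ * (ℓ.factorial : ℝ) ^ 2 := by
        field_simp
        ring
    _ ≤ 2 * C * 3 ^ ℓ * 4 ^ ℓ * (ℓ.factorial : ℝ) ^ 2 := by gcongr
    _ = 2 * C * 12 ^ ℓ * (ℓ.factorial : ℝ) ^ 2 := by
        rw [mul_assoc (2 * C), ← mul_pow]
        norm_num
    _ ≤ (2 * C + 12) * (2 * C + 12) ^ ℓ * (ℓ.factorial : ℝ) ^ 8 := by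
        have h8 : (ℓ.factorial : ℝ) ^ 2 ≤ (ℓ.factorial : ℝ) ^ 8 :=
          pow_le_pow_right₀ hfac (by norm_num)
        gcongr <;> linarith
    _ = (2 * C + 12) ^ (ℓ + 1) * (ℓ.factorial : ℝ) ^ 8 := by
        rw [pow_succ]
        ring

end

/-! ### the mean value of `GG` -/

lemma bg_nonneg (Z : ℝ) (z : Qd t c) : 0 ≤ bg Z z := by
  unfold bg
  have := mom_w_nonneg (Real.log (nm z) - Real.log Z)
  positivity

lemma bg_le (Z : ℝ) (z : Qd t c) : bg Z z ≤ 1 / nm z := by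
  unfold bg
  have := mom_w_le_one (Real.log (nm z) - Real.log Z)
  gcongr

lemma bg_ne {Z : ℝ} {z : Qd t c} (h : bg Z z ≠ 0) :
    0 < nm z ∧ Real.log Z - 1 ≤ Real.log (nm z) ∧ Real.log (nm z) ≤ Real.log Z + 1 := by
  have : bw Z (nm z) ≠ 0 := h
  exact mom_bw_ne this

lemma gl_norm (z : Qd t c) : ‖(gl z : ℂ)‖ ≤ 1 := by
  rcases gl_eq z with h | h <;> rw [h] <;> simp

lemma coef_norm (Z : ℝ) (z : Qd t c) : ‖(gl z : ℂ) * (bg Z z : ℂ)‖ ≤ 1 / nm z := by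
  rw [norm_mul, Complex.norm_real, Real.norm_of_nonneg (bg_nonneg Z z)]
  calc ‖(gl z : ℂ)‖ * bg Z z ≤ 1 * bg Z z :=
        mul_le_mul_of_nonneg_right (gl_norm z) (bg_nonneg Z z)
    _ = bg Z z := one_mul _
    _ ≤ 1 / nm z := bg_le Z z

open scoped Classical in
lemma GG_filter (Z : ℝ) (k : ℤ) :
    Pool.Agent.W78.GR.GG η Z k =
      DPG η ((pball η (Real.exp 1 * Z)).filter (fun z => bg Z z ≠ 0))
      (fun z => (gl z : ℂ) * (bg Z z : ℂ)) k := by
  unfold Pool.Agent.W78.GR.GG DPG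
  rw [Finset.sum_filter_of_ne]
  intro n _ hn h0
  apply hn
  simp only [h0]
  simp

/-- the number of elements in a ball -/
lemma card_ball_le (hLAT : S_LAT t c η) :
    ∃ C : ℝ, 0 < C ∧ ∀ X : ℝ, 1 ≤ X → ((ball η X).card : ℝ) ≤ C * X := by
  obtain ⟨C, hC, h1, _⟩ := hLAT
  refine ⟨C + |kap η| + 1, by positivity, ?_⟩
  intro X hX
  have h := (abs_le.1 (h1 X 1 0 hX le_rfl)).2
  have hf : (ball η X).filter (lat 1 0) = ball η X := by
    apply Finset.filter_true_of_mem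
    intro z _
    unfold lat
    simp
  rw [hf] at h
  have hs : Real.sqrt X ≤ X := by
    rw [Real.sqrt_le_left (by linarith)]
    nlinarith
  have h2 : C * Real.sqrt X ≤ C * X := by gcongr
  have h3 : kap η * X ≤ |kap η| * X := by
    have := le_abs_self (kap η)
    gcongr
  simp only [Nat.cast_one, div_one] at h
  nlinarith

theorem mom0_of (U : Un t c η) (hLS : S_LS t c η) (hLAT : S_LAT t c η) : S_MOM0 t c η := by
  classical
  obtain ⟨C, hC, hls⟩ := hLS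
  obtain ⟨C', hC', hcard⟩ := card_ball_le hLAT
  set e := Real.exp 1 with he
  have he0 : 0 < e := Real.exp_pos 1
  have he1 : 1 ≤ e := Real.one_le_exp zero_le_one
  refine ⟨C * C' * e ^ 4, by positivity, ?_⟩
  intro K Z hZ hK
  have hZ0 : 0 < Z := by linarith
  have heZ : 1 ≤ e * Z := by nlinarith
  set s := (pball η (e * Z)).filter (fun z => bg Z z ≠ 0) with hs
  have hmem : ∀ z ∈ s, prim z ∧ Z / e ≤ (nm z : ℝ) ∧ (nm z : ℝ) ≤ e * Z := by
    intro z hz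
    rw [hs, Finset.mem_filter, U.mem_pball] at hz
    obtain ⟨h0, h1, h2⟩ := bg_ne hz.2
    have hpos : (0 : ℝ) < nm z := by exact_mod_cast h0
    refine ⟨hz.1.2.1, ?_, hz.1.2.2⟩
    rw [← Real.log_le_log_iff (by positivity) hpos, Real.log_div hZ0.ne' he0.ne', he,
      Real.log_exp]
    exact h1
  have hm := hls (e * Z) K s (fun z => (gl z : ℂ) * (bg Z z : ℂ)) heZ hK
    (Finset.filter_subset _ _)
  have htcard : (s.card : ℝ) ≤ C' * (e * Z) := by
    refine le_trans ?_ (hcard (e * Z) heZ)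
    have : s.card ≤ (ball η (e * Z)).card := by
      calc s.card ≤ (pball η (e * Z)).card := Finset.card_filter_le _ _
        _ ≤ (ball η (e * Z)).card := by
          unfold pball
          exact Finset.card_filter_le _ _
    exact_mod_cast this
  have hsum : ∑ z ∈ s, ‖(gl z : ℂ) * (bg Z z : ℂ)‖ ^ 2 ≤ C' * (e * Z) * (e / Z) ^ 2 := by
    calc ∑ z ∈ s, ‖(gl z : ℂ) * (bg Z z : ℂ)‖ ^ 2 ≤ ∑ _z ∈ s, (e / Z) ^ 2 := by
          apply Finset.sum_le_sum
          intro z hz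
          have hn1 := (hmem z hz).2.1
          have hze : 0 < Z / e := by positivity
          have hnpos : (0 : ℝ) < nm z := by linarith
          have hinv : 1 / (nm z : ℝ) ≤ e / Z := by
            rw [div_le_div_iff₀ hnpos hZ0, one_mul]
            rw [div_le_iff₀ he0] at hn1
            linarith
          calc ‖(gl z : ℂ) * (bg Z z : ℂ)‖ ^ 2 ≤ (1 / (nm z : ℝ)) ^ 2 := by
                gcongr
                exact coef_norm Z z
            _ ≤ (e / Z) ^ 2 := by gcongr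
      _ = s.card * (e / Z) ^ 2 := by rw [Finset.sum_const, nsmul_eq_mul]
      _ ≤ C' * (e * Z) * (e / Z) ^ 2 := by gcongr
  calc ∑ k ∈ FK K, ‖Pool.Agent.W78.GR.GG η Z k‖ ^ 2
      = ∑ k ∈ FK K, ‖DPG η s (fun z => (gl z : ℂ) * (bg Z z : ℂ)) k‖ ^ 2 := by
        apply Finset.sum_congr rfl
        intro k _
        rw [GG_filter, hs]
    _ ≤ _ := hm
    _ ≤ C * (K + e * Z) * (C' * (e * Z) * (e / Z) ^ 2) := by gcongr
    _ = C * C' * e ^ 3 * (e + K / Z) := by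
        field_simp
        ring
    _ ≤ C * C' * e ^ 3 * (e + e * (K / Z)) := by
        gcongr
        have : (0 : ℝ) ≤ K / Z := by positivity
        nlinarith
    _ = C * C' * e ^ 4 * (1 + K / Z) := by ring

end Pool.Agent.W571.GR
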